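import Mathlib

set_option autoImplicit false

/-!
The set-splitting game on a set `E`: player A has a winning strategy if and only if `E` is
countable.
-/

namespace Pool.Agent.Results.MP_053b7f_lc.SplittingGame

/-- The two parts `S ∩ X` and `S \ X` of the partition of `S` given by `X`. -/
def part {E : Type*} (S X : Set E) (b : Bool) : Set E := if b then S ∩ X else S \ X

/-- A strategy of player A. A move of B is a pair `(b, X)`: the choice `b` of a part of the last
partition made by A, and the partition of the chosen set given by `X`. The strategy tells A, given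
the list of all moves made by B so far, which part of the last partition of B to choose (`choose`,
used after at least one move of B) and how to partition the set then reached (`split`). -/
structure Strategy (E : Type*) where
  split : List (Bool × Set E) → Set E
  choose : List (Bool × Set E) → Bool

/-- the first `k` moves of B -/
def moves {E : Type*} (m : ℕ → Bool × Set E) (k : ℕ) : List (Bool × Set E) :=
  (List.range k).map m

/-- The sets `S 0 = E ⊇ S 1 ⊇ S 2 ⊇ ...` of the play in which A follows `σ` and B makes the moves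
`m 0, m 1, ...`. For even `n = 2k` the set `S n` is split by A and B chooses `S (n+1)`; for odd
`n = 2k+1` it is split by B and A chooses `S (n+1)`. -/
def S {E : Type*} (σ : Strategy E) (m : ℕ → Bool × Set E) : ℕ → Set E
  | 0 => Set.univ
  | n + 1 => if Even n then part (S σ m n) (σ.split (moves m (n / 2))) (m (n / 2)).1
      else part (S σ m n) (m (n / 2)).2 (σ.choose (moves m (n / 2 + 1)))

/-- A wins every play in which A follows `σ` -/
def Winning {E : Type*} (σ : Strategy E) : Prop :=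
  ∀ m : ℕ → Bool × Set E, ⋂ n ≥ 1, S σ m n = ∅

lemma S_odd {E : Type*} (σ : Strategy E) (m : ℕ → Bool × Set E) (k : ℕ) :
    S σ m (2 * k + 1) = part (S σ m (2 * k)) (σ.split (moves m k)) (m k).1 := by
  have h1 : Even (2 * k) := even_two_mul k
  have h2 : 2 * k / 2 = k := by omega
  rw [S, if_pos h1, h2]

lemma S_even {E : Type*} (σ : Strategy E) (m : ℕ → Bool × Set E) (k : ℕ) :
    S σ m (2 * k + 2) = part (S σ m (2 * k + 1)) (m k).2 (σ.choose (moves m (k + 1))) := by
  have h1 : ¬ Even (2 * k + 1) := by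
    rw [Nat.not_even_iff_odd]
    exact odd_two_mul_add_one k
  have h2 : (2 * k + 1) / 2 = k := by omega
  rw [show 2 * k + 2 = (2 * k + 1) + 1 from rfl, S, if_neg h1, h2]

lemma moves_succ {E : Type*} (m : ℕ → Bool × Set E) (k : ℕ) :
    moves m (k + 1) = moves m k ++ [m k] := by
  unfold moves
  rw [List.range_succ, List.map_append]
  rfl

lemma part_sub {E : Type*} (S X : Set E) (b : Bool) : part S X b ⊆ S := by
  unfold part
  split
  · exact Set.inter_subset_left
  · exact Set.sdiff_subset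

lemma S_anti {E : Type*} (σ : Strategy E) (m : ℕ → Bool × Set E) (n : ℕ) :
    S σ m (n + 1) ⊆ S σ m n := by
  rw [S]
  split
  · exact part_sub _ _ _
  · exact part_sub _ _ _

/-- the countable case -/
lemma countable_wins (E : Type*) [Countable E] : ∃ σ : Strategy E, Winning σ := by
  classical
  rcases isEmpty_or_nonempty E with hE | hE
  · refine ⟨⟨fun _ => ∅, fun _ => true⟩, fun m => ?_⟩
    exact Set.eq_empty_of_isEmpty _
  · obtain ⟨e, he⟩ := exists_surjective_nat E
    refine ⟨⟨fun _ => ∅, fun L => if e (L.length - 1) ∈ (L.getLast?.getD (true, ∅)).2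
      then false else true⟩, fun m => ?_⟩
    rw [Set.eq_empty_iff_forall_notMem]
    intro p hp
    obtain ⟨k, rfl⟩ := he p
    rw [Set.mem_iInter₂] at hp
    have h1 := hp (2 * k + 2) (by omega)
    rw [S_even] at h1
    simp only [moves_succ, List.length_append, List.length_singleton, Nat.add_sub_cancel,
      List.getLast?_concat, Option.getD_some] at h1
    have h2 : (moves m k).length = k := by simp [moves]
    rw [h2] at h1
    by_cases h3 : e k ∈ (m k).2
    · rw [if_pos h3] at h1
      exact h1.2 h3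
    · rw [if_neg h3] at h1
      exact h3 h1.2

section uncountable

variable {E : Type*} (σ : Strategy E)

/-- one round: B chooses the part `mv.1` of the partition of `s.1` made by A, splits it by `mv.2`,
and A chooses a part -/
def step (s : Set E × List (Bool × Set E)) (mv : Bool × Set E) : Set E × List (Bool × Set E) :=
  (part (part s.1 (σ.split s.2) mv.1) mv.2 (σ.choose (s.2 ++ [mv])), s.2 ++ [mv])

/-- positions reachable when B only splits by the sets `F i` -/
def reach (F : ℕ → Set E) : ℕ → Set (Set E × List (Bool × Set E))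
  | 0 => {(Set.univ, [])}
  | k + 1 => ⋃ s ∈ reach F k, Set.range fun q : Bool × ℕ => step σ s (q.1, F q.2)

lemma reach_countable (F : ℕ → Set E) (k : ℕ) : (reach σ F k).Countable := by
  induction k with
  | zero => exact Set.countable_singleton _
  | succ k ih => exact ih.biUnion fun s _ => Set.countable_range _

/-- the set reached after the choice of B -/
def O (s : Set E × List (Bool × Set E)) (b : Bool) : Set E := part s.1 (σ.split s.2) b

/-- the points in a countable part -/
def Cnt (T : Set E) (F : ℕ → Set E) (s : Set E × List (Bool × Set E)) (b : Bool) (i : ℕ) : Set E :=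
  {x | (x ∈ O σ s b ∩ F i ∩ T ∧ (O σ s b ∩ F i ∩ T).Countable) ∨
    (x ∈ (O σ s b \ F i) ∩ T ∧ ((O σ s b \ F i) ∩ T).Countable)}

lemma Cnt_countable (T : Set E) (F : ℕ → Set E) (s : Set E × List (Bool × Set E)) (b : Bool)
    (i : ℕ) : (Cnt σ T F s b i).Countable := by
  have h : Cnt σ T F s b i = {x | x ∈ O σ s b ∩ F i ∩ T ∧ (O σ s b ∩ F i ∩ T).Countable} ∪
      {x | x ∈ (O σ s b \ F i) ∩ T ∧ ((O σ s b \ F i) ∩ T).Countable} := rfl
  rw [h]
  refine Set.Countable.union ?_ ?_
  · by_cases hc : (O σ s b ∩ F i ∩ T).Countable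
    · exact hc.mono fun x hx => hx.1
    · refine Set.Countable.mono (s₂ := ∅) (fun x hx => hc hx.2) Set.countable_empty
  · by_cases hc : ((O σ s b \ F i) ∩ T).Countable
    · exact hc.mono fun x hx => hx.1
    · refine Set.Countable.mono (s₂ := ∅) (fun x hx => hc hx.2) Set.countable_empty

/-- the points that B cannot keep -/
def Dd (T : Set E) (F : ℕ → Set E) (s : Set E × List (Bool × Set E)) (b : Bool) : Set E :=
  {x | x ∈ O σ s b ∩ T ∧ (∀ i, x ∉ Cnt σ T F s b i) ∧
    ∀ i, ¬ (O σ s b ∩ F i ∩ T).Countable → ¬ ((O σ s b \ F i) ∩ T).Countable →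
      x ∉ (step σ s (b, F i)).1}

lemma Dd_subsingleton {T : Set E} {F : ℕ → Set E}
    (hF : ∀ x ∈ T, ∀ y ∈ T, x ≠ y → ∃ i, x ∈ F i ∧ y ∉ F i)
    (s : Set E × List (Bool × Set E)) (b : Bool) : (Dd σ T F s b).Subsingleton := by
  intro x hx y hy
  by_contra hne
  obtain ⟨i, hi1, hi2⟩ := hF x hx.1.2 y hy.1.2 hne
  have h1 : ¬ (O σ s b ∩ F i ∩ T).Countable := fun hc =>
    hx.2.1 i (Or.inl ⟨⟨⟨hx.1.1, hi1⟩, hx.1.2⟩, hc⟩)
  have h2 : ¬ ((O σ s b \ F i) ∩ T).Countable := fun hc =>
    hy.2.1 i (Or.inr ⟨⟨⟨hy.1.1, hi2⟩, hy.1.2⟩, hc⟩)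
  have h3 := hx.2.2 i h1 h2
  have h4 := hy.2.2 i h1 h2
  have h5 : (step σ s (b, F i)).1 = part (O σ s b) (F i) (σ.choose (s.2 ++ [(b, F i)])) := rfl
  rw [h5] at h3 h4
  unfold part at h3 h4
  cases hch : σ.choose (s.2 ++ [(b, F i)]) with
  | true =>
    rw [hch] at h3
    exact h3 ⟨hx.1.1, hi1⟩
  | false =>
    rw [hch] at h4
    exact h4 ⟨hy.1.1, hi2⟩

/-- B beats `σ` if there is a countable family of sets separating the points of an uncountable
set -/
lemma beat {T : Set E} (hT : ¬ T.Countable) {F : ℕ → Set E}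
    (hF : ∀ x ∈ T, ∀ y ∈ T, x ≠ y → ∃ i, x ∈ F i ∧ y ∉ F i) :
    ∃ m : ℕ → Bool × Set E, (⋂ n ≥ 1, S σ m n).Nonempty ∧
      ∀ k, ¬ (S σ m (2 * k + 1) ∩ (m k).2).Countable ∧
        ¬ (S σ m (2 * k + 1) \ (m k).2).Countable := by
  classical
  set Bad : Set E := ⋃ k, ⋃ s ∈ reach σ F k, ⋃ b : Bool, (Dd σ T F s b ∪ ⋃ i, Cnt σ T F s b i)
    with hBad
  have hBc : Bad.Countable := by
    refine Set.countable_iUnion fun k => (reach_countable σ F k).biUnion fun s _ =>
      Set.countable_iUnion fun b => ?_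
    exact (Dd_subsingleton σ hF s b).countable.union
      (Set.countable_iUnion fun i => Cnt_countable σ T F s b i)
  obtain ⟨x, hxT, hxB⟩ : ∃ x ∈ T, x ∉ Bad := by
    by_contra hc
    push Not at hc
    exact hT (hBc.mono hc)
  have hgood : ∀ k, ∀ s ∈ reach σ F k, ∀ b, x ∉ Dd σ T F s b ∧ ∀ i, x ∉ Cnt σ T F s b i := by
    intro k s hs b
    refine ⟨fun h => hxB ?_, fun i h => hxB ?_⟩
    · rw [hBad]
      simp only [Set.mem_iUnion]
      exact ⟨k, s, hs, b, Or.inl h⟩
    · rw [hBad]
      simp only [Set.mem_iUnion]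
      exact ⟨k, s, hs, b, Or.inr (Set.mem_iUnion.2 ⟨i, h⟩)⟩
  have key : ∀ s : {s : Set E × List (Bool × Set E) // (∃ k, s ∈ reach σ F k) ∧ x ∈ s.1},
      ∃ mv : Bool × Set E, ((∃ k, step σ s.1 mv ∈ reach σ F k) ∧ x ∈ (step σ s.1 mv).1) ∧
        ¬ (O σ s.1 mv.1 ∩ mv.2).Countable ∧ ¬ (O σ s.1 mv.1 \ mv.2).Countable := by
    rintro ⟨s, ⟨k, hk⟩, hx⟩
    obtain ⟨b, hb⟩ : ∃ b, x ∈ O σ s b := by
      by_cases h : x ∈ σ.split s.2
      · exact ⟨true, ⟨hx, h⟩⟩
      · exact ⟨false, ⟨hx, h⟩⟩
    obtain ⟨h1, h2⟩ := hgood k s hk b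
    have h3 : ∃ i, ¬ (O σ s b ∩ F i ∩ T).Countable ∧ ¬ ((O σ s b \ F i) ∩ T).Countable ∧
        x ∈ (step σ s (b, F i)).1 := by
      by_contra hc
      push Not at hc
      exact h1 ⟨⟨hb, hxT⟩, h2, hc⟩
    obtain ⟨i, hi1, hi2, hi3⟩ := h3
    refine ⟨(b, F i), ⟨⟨k + 1, ?_⟩, hi3⟩, ?_, ?_⟩
    · rw [reach]
      exact Set.mem_biUnion hk ⟨(b, i), rfl⟩
    · exact fun hc => hi1 (hc.mono Set.inter_subset_left)
    · exact fun hc => hi2 (hc.mono Set.inter_subset_left)
  choose f hf using key
  set st : ℕ → {s : Set E × List (Bool × Set E) // (∃ k, s ∈ reach σ F k) ∧ x ∈ s.1} :=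
    fun k => Nat.rec ⟨(Set.univ, []), ⟨0, rfl⟩, Set.mem_univ x⟩
      (fun _ s => ⟨step σ s.1 (f s), (hf s).1⟩) k with hst
  set m : ℕ → Bool × Set E := fun k => f (st k) with hm
  have hsucc : ∀ k, (st (k + 1)).1 = step σ (st k).1 (m k) := fun k => rfl
  have hinv : ∀ k, S σ m (2 * k) = (st k).1.1 ∧ moves m k = (st k).1.2 := by
    intro k
    induction k with
    | zero => exact ⟨rfl, rfl⟩
    | succ k ih =>
      obtain ⟨i1, i2⟩ := ih
      refine ⟨?_, ?_⟩
      · rw [show 2 * (k + 1) = 2 * k + 2 from by ring, S_even, S_odd, i1, moves_succ, i2, hsucc]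
        rfl
      · rw [moves_succ, i2, hsucc]
        rfl
  refine ⟨m, ⟨x, ?_⟩, ?_⟩
  · rw [Set.mem_iInter₂]
    intro n _
    have h1 : ∀ k, x ∈ S σ m (2 * k) := by
      intro k
      rw [(hinv k).1]
      exact (st k).2.2
    have h2 : x ∈ S σ m (2 * n) := h1 n
    have h3 : ∀ j, S σ m (n + j) ⊆ S σ m n := by
      intro j
      induction j with
      | zero => exact subset_rfl
      | succ j ih => exact (S_anti σ m (n + j)).trans ih
    have h4 := h3 n
    rw [show n + n = 2 * n from by ring] at h4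
    exact h4 h2
  · intro k
    have h1 : S σ m (2 * k + 1) = O σ (st k).1 (m k).1 := by
      rw [S_odd, (hinv k).1, (hinv k).2]
      rfl
    rw [h1]
    exact (hf (st k)).2

end uncountable

/-- an uncountable type has an uncountable subset whose points are separated by countably many
sets -/
lemma exists_separated (E : Type*) [Uncountable E] : ∃ T : Set E, ¬ T.Countable ∧
    ∃ F : ℕ → Set E, ∀ x ∈ T, ∀ y ∈ T, x ≠ y → ∃ i, x ∈ F i ∧ y ∉ F i := by
  classical
  have h1 : Cardinal.aleph 1 ≤ Cardinal.mk E := by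
    have h := Cardinal.aleph0_lt_mk (α := E)
    rw [← Cardinal.succ_aleph0]
    exact Order.succ_le_of_lt h
  obtain ⟨T, hT⟩ := Cardinal.le_mk_iff_exists_set.1 h1
  refine ⟨T, ?_, ?_⟩
  · intro hc
    have h2 := Cardinal.le_aleph0_iff_set_countable.2 hc
    rw [hT] at h2
    exact absurd h2 (not_le.2 Cardinal.aleph0_lt_aleph_one)
  · have h3 : Cardinal.lift.{0} (Cardinal.mk T) ≤ Cardinal.lift (Cardinal.mk (Set ℕ)) := by
      rw [hT]
      simp only [Cardinal.mk_set, Cardinal.mk_nat]
      simpa using Cardinal.aleph_one_le_continuum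
    obtain ⟨g⟩ := Cardinal.lift_mk_le'.1 h3
    have hg : Function.Injective g := g.injective
    obtain ⟨e, he⟩ := exists_surjective_nat (Bool × ℕ)
    refine ⟨fun n => {x | ∃ h : x ∈ T, (decide ((e n).2 ∈ g ⟨x, h⟩)) = (e n).1}, ?_⟩
    intro x hx y hy hne
    have h4 : g ⟨x, hx⟩ ≠ g ⟨y, hy⟩ := by
      intro h
      exact hne (congrArg Subtype.val (hg h))
    obtain ⟨i, hi⟩ : ∃ i, ¬ (i ∈ g ⟨x, hx⟩ ↔ i ∈ g ⟨y, hy⟩) := by
      by_contra hc
      push Not at hc
      exact h4 (Set.ext hc)
    obtain ⟨j, hj⟩ := he (decide (i ∈ g ⟨x, hx⟩), i)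
    refine ⟨j, ?_, ?_⟩
    · refine ⟨hx, ?_⟩
      rw [hj]
    · rintro ⟨h5, h6⟩
      rw [hj] at h6
      apply hi
      have : decide (i ∈ g ⟨y, hy⟩) = decide (i ∈ g ⟨x, hx⟩) := h6
      rw [decide_eq_decide] at this
      exact this.symm

/-- Player A has a winning strategy in the set-splitting game on `E` if and only if `E` is
countable. Moreover, if `E` is uncountable, then B can win against any given strategy of A in such
a way that both parts of every partition made by B are uncountable. -/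
theorem result.{u} :
    (∀ E : Type u, (∃ σ : Strategy E, Winning σ) ↔ Countable E) ∧
    ∀ (E : Type u) [Uncountable E] (σ : Strategy E), ∃ m : ℕ → Bool × Set E,
      (⋂ n ≥ 1, S σ m n).Nonempty ∧
      ∀ k, ¬ (S σ m (2 * k + 1) ∩ (m k).2).Countable ∧
        ¬ (S σ m (2 * k + 1) \ (m k).2).Countable := by
  refine ⟨fun E => ⟨?_, fun h => countable_wins E⟩, fun E _ σ => ?_⟩
  · rintro ⟨σ, hσ⟩
    by_contra hc
    rw [not_countable_iff] at hc
    obtain ⟨T, hT, F, hF⟩ := exists_separated E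
    obtain ⟨m, hm, -⟩ := beat σ hT hF
    rw [hσ m] at hm
    exact Set.not_nonempty_empty hm
  · obtain ⟨T, hT, F, hF⟩ := exists_separated E
    exact beat σ hT hF

end Pool.Agent.Results.MP_053b7f_lc.SplittingGame
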